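import Pool.Agent.Mg.F7504ef.Ga64163
import Pool.Agent.Mg.F7504ef.G02dcde
import Pool.Agent.Mg.F7504ef.G91f968

/-!
Dirichlet subsolutions on bounded domains with corners: the positive part of every subsolution has
a finite Laplacian (or lies in `W_0^{1,1}`) if and only if no corner is obtuse.
-/

set_option autoImplicit false

open scoped ContDiff
open Pool.Agent.MP_7504ef_an

namespace Pool.Agent.Results.MP_7504ef_an.Corners

theorem result (N m : ℕ) (hN : 0 < N) (ρ : Fin m → E N → ℝ) (hs : ∀ k, ContDiff ℝ ∞ (ρ k))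
    (hb : Bornology.IsBounded {x | ∀ k, 0 ≤ ρ k x})
    (hi : ∀ y, (∀ k, 0 ≤ ρ k y) →
      LinearIndependent ℝ fun k : {k // ρ k y = 0} => gradient (ρ k) y) :
    List.TFAE [∀ y, (∀ k, 0 ≤ ρ k y) → ∀ i j, i ≠ j → ρ i y = 0 → ρ j y = 0 →
        inner ℝ (gradient (ρ i) y) (gradient (ρ j) y) ≤ 0,
      AllSub {x | ∀ k, 0 < ρ k x} LapFin, AllSub {x | ∀ k, 0 < ρ k x} W011] := by
  simp only [inner_grad]
  exact tfae_asm (K1_pf (K0_pf PSI_pf PAR0_pf APX_pf TAIL_pf MUF_pf COM_pf) CUT_pf) EXP_pf RMK_pf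
    (GRD_pf PAR0_pf APX_pf) WCT_pf (MR_pf SUR0_pf) (HH_pf SUR0_pf) (GEO_pf SUR0_pf) (FUN_pf PSI_pf)
    (SBS_pf CUT_pf) NEG_pf hN ⟨hs, hb, hi⟩

end Pool.Agent.Results.MP_7504ef_an.Corners
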